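import Pool.Agent.Helper36_M1D.Stmts

set_option autoImplicit false
open Set Topology Filter

namespace Pool.Agent.MD.H14

/-- dyadic cells. -/
def cell (j i : ℕ) (c : Cant) : Set (unitInterval × Cant) :=
  {x | (i : ℝ) ≤ 2 ^ j * (x.1 : ℝ) ∧ 2 ^ j * (x.1 : ℝ) ≤ i + 1 ∧ ∀ l < j, x.2 l = c l}

theorem cell_congr {j i : ℕ} {c c' : Cant} (h : ∀ l < j, c' l = c l) :
    cell j i c' = cell j i c := by
  ext x
  simp only [cell, mem_setOf_eq]
  refine and_congr_right fun _ => and_congr_right fun _ => ?_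
  exact forall_congr' fun l => imp_congr_right fun hl => by rw [h l hl]

/-- abstract relation: division. -/
theorem le_div {i m j : ℕ} (hm : m ≤ j) {t : ℝ} (h : (i : ℝ) ≤ 2 ^ j * t) :
    ((i / 2 ^ m : ℕ) : ℝ) ≤ 2 ^ (j - m) * t := by
  have h1 : (2 : ℝ) ^ j = 2 ^ (j - m) * 2 ^ m := by rw [← pow_add, Nat.sub_add_cancel hm]
  have h2 : ((i / 2 ^ m : ℕ) : ℝ) * 2 ^ m ≤ i := by
    have := Nat.div_mul_le_self i (2 ^ m)
    exact_mod_cast this
  have hp : (0 : ℝ) < 2 ^ m := by positivity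
  rw [h1] at h
  have : ((i / 2 ^ m : ℕ) : ℝ) * 2 ^ m ≤ (2 ^ (j - m) * t) * 2 ^ m := by
    calc _ ≤ (i : ℝ) := h2
      _ ≤ _ := h
      _ = _ := by ring
  exact le_of_mul_le_mul_right this hp

theorem lt_div {i m j : ℕ} (hm : m ≤ j) {t : ℝ} (h : (i : ℝ) < 2 ^ j * t) :
    ((i / 2 ^ m : ℕ) : ℝ) < 2 ^ (j - m) * t := by
  have h1 : (2 : ℝ) ^ j = 2 ^ (j - m) * 2 ^ m := by rw [← pow_add, Nat.sub_add_cancel hm]
  have h2 : ((i / 2 ^ m : ℕ) : ℝ) * 2 ^ m ≤ i := by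
    have := Nat.div_mul_le_self i (2 ^ m)
    exact_mod_cast this
  have hp : (0 : ℝ) < 2 ^ m := by positivity
  rw [h1] at h
  have : ((i / 2 ^ m : ℕ) : ℝ) * 2 ^ m < (2 ^ (j - m) * t) * 2 ^ m := by
    calc _ ≤ (i : ℝ) := h2
      _ < _ := h
      _ = _ := by ring
  exact lt_of_mul_lt_mul_right this hp.le

theorem succ_le_div_mul (i m : ℕ) : (i : ℝ) + 1 ≤ ((i / 2 ^ m : ℕ) + 1) * 2 ^ m := by
  have : i < (i / 2 ^ m + 1) * 2 ^ m := Nat.lt_succ_mul_of_div_lt' i m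
  have h : i + 1 ≤ (i / 2 ^ m + 1) * 2 ^ m := this
  exact_mod_cast h
where
  Nat.lt_succ_mul_of_div_lt' (i m : ℕ) : i < (i / 2 ^ m + 1) * 2 ^ m := by
    have := Nat.div_add_mod i (2 ^ m)
    have h2 := Nat.mod_lt i (show 0 < 2 ^ m by positivity)
    nlinarith

theorem div_le {i m j : ℕ} (hm : m ≤ j) {t : ℝ} (h : 2 ^ j * t ≤ (i : ℝ) + 1) :
    2 ^ (j - m) * t ≤ ((i / 2 ^ m : ℕ) : ℝ) + 1 := by
  have h1 : (2 : ℝ) ^ j = 2 ^ (j - m) * 2 ^ m := by rw [← pow_add, Nat.sub_add_cancel hm]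
  have hp : (0 : ℝ) < 2 ^ m := by positivity
  rw [h1] at h
  have : (2 ^ (j - m) * t) * 2 ^ m ≤ (((i / 2 ^ m : ℕ) : ℝ) + 1) * 2 ^ m := by
    calc _ = 2 ^ (j - m) * 2 ^ m * t := by ring
      _ ≤ _ := h
      _ ≤ _ := succ_le_div_mul i m
  exact le_of_mul_le_mul_right this hp

theorem div_lt {i m j : ℕ} (hm : m ≤ j) {t : ℝ} (h : 2 ^ j * t < (i : ℝ) + 1) :
    2 ^ (j - m) * t < ((i / 2 ^ m : ℕ) : ℝ) + 1 := by
  have h1 : (2 : ℝ) ^ j = 2 ^ (j - m) * 2 ^ m := by rw [← pow_add, Nat.sub_add_cancel hm]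
  have hp : (0 : ℝ) < 2 ^ m := by positivity
  rw [h1] at h
  have : (2 ^ (j - m) * t) * 2 ^ m < (((i / 2 ^ m : ℕ) : ℝ) + 1) * 2 ^ m := by
    calc _ = 2 ^ (j - m) * 2 ^ m * t := by ring
      _ < _ := h
      _ ≤ _ := succ_le_div_mul i m
  exact lt_of_mul_lt_mul_right this hp.le

/-- right relation -/
def RR (t : ℝ) (j i : ℕ) : Prop := (i : ℝ) ≤ 2 ^ j * t ∧ 2 ^ j * t < (i : ℝ) + 1
/-- left relation -/
def RL (t : ℝ) (j i : ℕ) : Prop := (i : ℝ) < 2 ^ j * t ∧ 2 ^ j * t ≤ (i : ℝ) + 1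

theorem RR.div {t : ℝ} {j i m : ℕ} (hm : m ≤ j) (h : RR t j i) : RR t (j - m) (i / 2 ^ m) :=
  ⟨le_div hm h.1, div_lt hm h.2⟩
theorem RL.div {t : ℝ} {j i m : ℕ} (hm : m ≤ j) (h : RL t j i) : RL t (j - m) (i / 2 ^ m) :=
  ⟨lt_div hm h.1, div_le hm h.2⟩
theorem RR.uniq {t : ℝ} {j i i' : ℕ} (h : RR t j i) (h' : RR t j i') : i = i' := by
  have h1 : (i : ℝ) < i' + 1 := h.1.trans_lt h'.2
  have h2 : (i' : ℝ) < i + 1 := h'.1.trans_lt h.2
  have h3 : i < i' + 1 := by exact_mod_cast h1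
  have h4 : i' < i + 1 := by exact_mod_cast h2
  omega
theorem RL.uniq {t : ℝ} {j i i' : ℕ} (h : RL t j i) (h' : RL t j i') : i = i' := by
  have h1 : (i : ℝ) < i' + 1 := h.1.trans_le h'.2
  have h2 : (i' : ℝ) < i + 1 := h'.1.trans_le h.2
  have h3 : i < i' + 1 := by exact_mod_cast h1
  have h4 : i' < i + 1 := by exact_mod_cast h2
  omega

section
variable {k : ℕ} (U : Fin k → Set (unitInterval × Cant))

/-- the cell is inside some `U a`. -/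
def Sub' (j i : ℕ) (c : Cant) : Prop := ∃ a, cell j i c ⊆ U a

/-- maximal cells. -/
def Mx (j i : ℕ) (c : Cant) : Prop :=
  i < 2 ^ j ∧ Sub' U j i c ∧ ∀ m, 0 < m → m ≤ j → ¬ Sub' U (j - m) (i / 2 ^ m) c

variable {U}

theorem Mx.uniq {c : Cant} (Rel : ℕ → ℕ → Prop)
    (hdiv : ∀ {j i m : ℕ}, m ≤ j → Rel j i → Rel (j - m) (i / 2 ^ m))
    (huniq : ∀ {j i i' : ℕ}, Rel j i → Rel j i' → i = i') {j i j' i' : ℕ}
    (h : Mx U j i c) (hr : Rel j i) (h' : Mx U j' i' c) (hr' : Rel j' i') : j = j' ∧ i = i' := by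
  have aux : ∀ {j i j' i' : ℕ}, Mx U j i c → Rel j i → Mx U j' i' c → Rel j' i' → ¬ j' < j := by
    intro j i j' i' h hr h' hr' hlt
    have h1 : j - (j - j') = j' := by omega
    have h2 := hdiv (m := j - j') (by omega) hr
    rw [h1] at h2
    have h3 := huniq h2 hr'
    have h4 := h.2.2 (j - j') (by omega) (by omega)
    rw [h1, h3] at h4
    exact h4 h'.2.1
  have h1 : j = j' := le_antisymm (not_lt.1 (aux h hr h' hr')) (not_lt.1 (aux h' hr' h hr))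
  subst h1
  exact ⟨rfl, huniq hr hr'⟩

theorem Mx.congr {j i : ℕ} {c c' : Cant} (h : ∀ l < j, c' l = c l) (hM : Mx U j i c') :
    Mx U j i c := by
  refine ⟨hM.1, ?_, ?_⟩
  · have := hM.2.1
    unfold Sub' at this ⊢
    rwa [cell_congr h] at this
  · intro m hm hmj hs
    apply hM.2.2 m hm hmj
    unfold Sub' at hs ⊢
    rwa [cell_congr fun l hl => h l (by omega)]

theorem exists_level {V : Set (unitInterval × Cant)} (hV : IsOpen V) {x : unitInterval × Cant}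
    (hx : x ∈ V) : ∃ j, ∀ i, x ∈ cell j i x.2 → cell j i x.2 ⊆ V := by
  obtain ⟨t, c⟩ := x
  obtain ⟨u, hu, v, hv, huv⟩ := mem_nhds_prod_iff.1 (hV.mem_nhds hx)
  obtain ⟨ε, hε, hball⟩ := Metric.mem_nhds_iff.1 hu
  rw [nhds_pi, Filter.mem_pi] at hv
  obtain ⟨J, hJ, s, hs, hJs⟩ := hv
  obtain ⟨n, hn⟩ := hJ.bddAbove
  obtain ⟨m, hm⟩ := exists_pow_lt_of_lt_one hε (by norm_num : (1 / 2 : ℝ) < 1)
  refine ⟨max m (n + 1), ?_⟩
  rintro i ⟨h1, h2, -⟩ ⟨t', c'⟩ ⟨h1', h2', h3'⟩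
  set j := max m (n + 1) with hj
  apply huv
  refine ⟨hball ?_, hJs ?_⟩
  · rw [Metric.mem_ball, Subtype.dist_eq, Real.dist_eq]
    simp only at h1 h2 h1' h2'
    have hp : (0 : ℝ) < 2 ^ j := by positivity
    have h4 : |(t' : ℝ) - t| * 2 ^ j ≤ 1 := by
      rw [← abs_of_pos hp, ← abs_mul, abs_le]
      constructor <;> nlinarith
    have h5 : (1 / 2 : ℝ) ^ j ≤ (1 / 2) ^ m :=
      pow_le_pow_of_le_one (by norm_num) (by norm_num) (le_max_left _ _)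
    have h6 : |(t' : ℝ) - t| ≤ (1 / 2) ^ j := by
      rw [one_div, inv_pow, ← one_div, le_div_iff₀ hp]
      exact h4
    linarith
  · intro l hl
    have : l < j := lt_of_lt_of_le (Nat.lt_succ_of_le (hn hl)) (le_max_right _ _)
    have h4 : c' l = c l := h3' l this
    change c' l ∈ s l
    rw [h4]
    exact mem_of_mem_nhds (hs l)

theorem near (s : ℝ) : ∀ᶠ s' in 𝓝 s, ∀ i : ℕ, ((i : ℝ) ≤ s' → (i : ℝ) ≤ s) ∧
    (s' ≤ (i : ℝ) + 1 → s ≤ (i : ℝ) + 1) := by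
  have h1 : ∀ᶠ s' in 𝓝 s, s' < (⌊s⌋ : ℝ) + 1 := eventually_lt_nhds (Int.lt_floor_add_one s)
  have h2 : ∀ᶠ s' in 𝓝 s, (⌈s⌉ : ℝ) - 1 < s' := by
    apply eventually_gt_nhds
    have := Int.ceil_lt_add_one s
    linarith
  filter_upwards [h1, h2] with s' h1 h2 i
  constructor
  · intro h
    have h3 : (i : ℝ) < (⌊s⌋ : ℝ) + 1 := h.trans_lt h1
    have h4 : (i : ℤ) < ⌊s⌋ + 1 := by exact_mod_cast h3
    have h5 : (i : ℤ) ≤ ⌊s⌋ := by omega
    have h6 : ((i : ℤ) : ℝ) ≤ (⌊s⌋ : ℝ) := by exact_mod_cast h5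
    have := Int.floor_le s
    push_cast at h6
    linarith
  · intro h
    have h3 : (⌈s⌉ : ℝ) - 1 < (i : ℝ) + 1 := h2.trans_le h
    have h4 : ⌈s⌉ - 1 < (i : ℤ) + 1 := by exact_mod_cast h3
    have h5 : ⌈s⌉ ≤ (i : ℤ) + 1 := by omega
    have h6 : (⌈s⌉ : ℝ) ≤ (((i : ℤ) + 1 : ℤ) : ℝ) := by exact_mod_cast h5
    have := Int.le_ceil s
    push_cast at h6
    linarith

theorem near_cells (x : unitInterval × Cant) (J : ℕ) : ∀ᶠ y in 𝓝 x, (∀ l < J, y.2 l = x.2 l) ∧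
    ∀ j ≤ J, ∀ i, y ∈ cell j i x.2 → x ∈ cell j i x.2 := by
  have h1 : ∀ᶠ y : unitInterval × Cant in 𝓝 x, ∀ l ∈ Finset.range J, y.2 l = x.2 l := by
    rw [Filter.eventually_all_finset]
    intro l _
    have h1 : Continuous (fun y : unitInterval × Cant => y.2 l) := by fun_prop
    have h2 : IsOpen {y : unitInterval × Cant | y.2 l = x.2 l} :=
      (isOpen_discrete {x.2 l}).preimage h1
    exact h2.mem_nhds rfl
  have h2 : ∀ᶠ y : unitInterval × Cant in 𝓝 x, ∀ j ∈ Finset.range (J + 1), ∀ i : ℕ,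
      ((i : ℝ) ≤ 2 ^ j * (y.1 : ℝ) → (i : ℝ) ≤ 2 ^ j * (x.1 : ℝ)) ∧
      (2 ^ j * (y.1 : ℝ) ≤ (i : ℝ) + 1 → 2 ^ j * (x.1 : ℝ) ≤ (i : ℝ) + 1) := by
    rw [Filter.eventually_all_finset]
    intro j _
    have hc : Continuous fun y : unitInterval × Cant => 2 ^ j * (y.1 : ℝ) := by fun_prop
    exact (hc.tendsto x).eventually (near (2 ^ j * (x.1 : ℝ)))
  filter_upwards [h1, h2] with y h1 h2
  refine ⟨fun l hl => h1 l (Finset.mem_range.2 hl), fun j hj i hy => ?_⟩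
  have := h2 j (Finset.mem_range.2 (Nat.lt_succ_of_le hj)) i
  exact ⟨this.1 hy.1, this.2 hy.2.1, fun l _ => rfl⟩

theorem exists_Mx {x : unitInterval × Cant} {a : Fin k} (hU : IsOpen (U a)) (hx : x ∈ U a) :
    ∃ j i, Mx U j i x.2 ∧ x ∈ cell j i x.2 := by
  classical
  obtain ⟨j, hj⟩ := exists_level hU hx
  -- a relation
  have key : ∀ (Rel : ℕ → ℕ → Prop)
    (hdiv : ∀ {j i m : ℕ}, m ≤ j → Rel j i → Rel (j - m) (i / 2 ^ m))
    (hcell : ∀ {j i : ℕ}, Rel j i → x ∈ cell j i x.2) (hex : ∃ i < 2 ^ j, Rel j i),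
    ∃ j i, Mx U j i x.2 ∧ x ∈ cell j i x.2 := by
    intro Rel hdiv hcell hex
    have hP : ∃ j, ∃ i < 2 ^ j, Rel j i ∧ Sub' U j i x.2 := by
      obtain ⟨i, hi, hr⟩ := hex
      exact ⟨j, i, hi, hr, a, hj i (hcell hr)⟩
    obtain ⟨i, hi, hr, hs⟩ := Nat.find_spec hP
    refine ⟨Nat.find hP, i, ⟨hi, hs, ?_⟩, hcell hr⟩
    intro m hm hmj hs'
    refine Nat.find_min hP (m := Nat.find hP - m) (by omega) ⟨i / 2 ^ m, ?_, hdiv hmj hr, hs'⟩
    rw [Nat.div_lt_iff_lt_mul (by positivity), ← pow_add, Nat.sub_add_cancel hmj]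
    exact hi
  rcases eq_or_lt_of_le x.1.2.1 with h0 | h0
  · refine key (RR x.1) (fun hm hr => hr.div hm)
      (fun hr => ⟨hr.1, hr.2.le, fun _ _ => rfl⟩) ⟨0, by positivity, ?_⟩
    rw [← h0]
    constructor <;> simp
  · refine key (RL x.1) (fun hm hr => hr.div hm)
      (fun hr => ⟨hr.1.le, hr.2, fun _ _ => rfl⟩) ⟨⌈2 ^ j * (x.1 : ℝ)⌉₊ - 1, ?_, ?_⟩
    · have h1 : ⌈2 ^ j * (x.1 : ℝ)⌉₊ ≤ 2 ^ j := by
        rw [Nat.ceil_le]
        push_cast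
        have := x.1.2.2
        nlinarith [show (0 : ℝ) < 2 ^ j by positivity]
      have h2 : 0 < 2 ^ j := by positivity
      omega
    · have h3 : 0 < ⌈2 ^ j * (x.1 : ℝ)⌉₊ := by
        rw [Nat.ceil_pos]; positivity
      have h4 : ((⌈2 ^ j * (x.1 : ℝ)⌉₊ - 1 : ℕ) : ℝ) = (⌈2 ^ j * (x.1 : ℝ)⌉₊ : ℝ) - 1 := by
        rw [Nat.cast_sub (by omega)]; simp
      constructor
      · rw [h4]
        have := Nat.ceil_lt_add_one (show (0 : ℝ) ≤ 2 ^ j * (x.1 : ℝ) by positivity)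
        linarith
      · rw [h4]
        have := Nat.le_ceil (2 ^ j * (x.1 : ℝ))
        linarith

end

theorem cell_aux : CELL := by
  classical
  intro k U hU
  -- assignment
  have hassign : ∃ as : Set (unitInterval × Cant) → Option (Fin k),
      ∀ S, (∃ a, S ⊆ U a) → ∃ a, as S = some a ∧ S ⊆ U a := by
    refine ⟨fun S => if h : ∃ a, S ⊆ U a then some h.choose else none, fun S hS => ?_⟩
    exact ⟨hS.choose, by simp [hS], hS.choose_spec⟩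
  obtain ⟨as, has⟩ := hassign
  refine ⟨fun a => {x | ∃ j i, Mx U j i x.2 ∧ x ∈ cell j i x.2 ∧ as (cell j i x.2) = some a},
    ?_, ?_, ?_, ?_⟩
  · rintro a x ⟨j, i, hM, hx, ha⟩
    obtain ⟨b, hb, hbU⟩ := has _ hM.2.1
    rw [ha] at hb
    obtain rfl := Option.some.inj hb
    exact hbU hx
  · rintro a x hxU hcl
    obtain ⟨b, hb⟩ := mem_iUnion.1 hxU
    obtain ⟨J, hJ⟩ := exists_level (hU b) hb
    obtain ⟨y, ⟨j, i, hM, hy, ha⟩, hyl, hyc⟩ :=
      ((mem_closure_iff_frequently.1 hcl).and_eventually (near_cells x J)).exists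
    have hjJ : j ≤ J := by
      by_contra hlt
      push Not at hlt
      have hs := hM.2.2 (j - J) (by omega) (by omega)
      have e1 : j - (j - J) = J := by omega
      rw [e1] at hs
      apply hs
      refine ⟨b, ?_⟩
      rw [cell_congr hyl]
      apply hJ
      apply hyc J le_rfl
      refine ⟨?_, ?_, hyl⟩
      · have := le_div (m := j - J) (by omega) hy.1
        rwa [e1] at this
      · have := div_le (m := j - J) (by omega) hy.2.1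
        rwa [e1] at this
    have hyl' : ∀ l < j, y.2 l = x.2 l := fun l hl => hyl l (by omega)
    refine ⟨j, i, hM.congr hyl', ?_, ?_⟩
    · apply hyc j hjJ
      rw [← cell_congr hyl']
      exact hy
    · rw [← cell_congr hyl']
      exact ha
  · intro x hx
    obtain ⟨b, hb⟩ := mem_iUnion.1 hx
    obtain ⟨j, i, hM, hxc⟩ := exists_Mx (hU b) hb
    obtain ⟨a, ha, -⟩ := has _ hM.2.1
    exact mem_iUnion.2 ⟨a, j, i, hM, hxc, ha⟩
  · intro x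
    have hsub : {a | x ∈ {x | ∃ j i, Mx U j i x.2 ∧ x ∈ cell j i x.2 ∧
        as (cell j i x.2) = some a}} ⊆
        {a | ∃ j i, Mx U j i x.2 ∧ RR x.1 j i ∧ as (cell j i x.2) = some a} ∪
        {a | ∃ j i, Mx U j i x.2 ∧ RL x.1 j i ∧ as (cell j i x.2) = some a} := by
      rintro a ⟨j, i, hM, hx, ha⟩
      by_cases h : 2 ^ j * (x.1 : ℝ) < i + 1
      · exact Or.inl ⟨j, i, hM, ⟨hx.1, h⟩, ha⟩
      · push Not at h
        refine Or.inr ⟨j, i, hM, ⟨by linarith, hx.2.1⟩, ha⟩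
    have hs1 : {a | ∃ j i, Mx U j i x.2 ∧ RR x.1 j i ∧
        as (cell j i x.2) = some a}.Subsingleton := by
      rintro a ⟨j, i, hM, hr, ha⟩ b ⟨j', i', hM', hr', hb⟩
      obtain ⟨rfl, rfl⟩ := Mx.uniq (RR x.1) (fun hm hr => hr.div hm) (fun h h' => h.uniq h')
        hM hr hM' hr'
      rw [ha] at hb
      exact Option.some.inj hb
    have hs2 : {a | ∃ j i, Mx U j i x.2 ∧ RL x.1 j i ∧
        as (cell j i x.2) = some a}.Subsingleton := by
      rintro a ⟨j, i, hM, hr, ha⟩ b ⟨j', i', hM', hr', hb⟩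
      obtain ⟨rfl, rfl⟩ := Mx.uniq (RL x.1) (fun hm hr => hr.div hm) (fun h h' => h.uniq h')
        hM hr hM' hr'
      rw [ha] at hb
      exact Option.some.inj hb
    have h1 := Set.ncard_le_ncard hsub (Set.toFinite _)
    have h2 := Set.ncard_union_le
      {a | ∃ j i, Mx U j i x.2 ∧ RR x.1 j i ∧ as (cell j i x.2) = some a}
      {a | ∃ j i, Mx U j i x.2 ∧ RL x.1 j i ∧ as (cell j i x.2) = some a}
    have h3 := (Set.ncard_le_one (Set.toFinite _)).2 fun a ha b hb => hs1 ha hb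
    have h4 := (Set.ncard_le_one (Set.toFinite _)).2 fun a ha b hb => hs2 ha hb
    exact h1.trans (h2.trans (by omega))

/-- CELL -/
theorem cellThm : CELL := cell_aux

end Pool.Agent.MD.H14
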