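import Pool.Agent.Helper36_M1D.Stmts

set_option autoImplicit false
open Set Topology Filter

namespace Pool.Agent.MD.H14

section
variable {T : Type} (U V P Q : Set (unitInterval × T))

/-- membership in `V` as a Boolean. -/
noncomputable def chi (c : T) (x : unitInterval) : Bool :=
  open Classical in decide ((x, c) ∈ V)

/-- chains of points off `P ∪ Q`. -/
inductive Reach (c : T) : unitInterval → Bool → Prop
  | zero : Reach c 0 false
  | stepP (a b : unitInterval) (e : Bool) (h : Reach c a e) (hab : a < b)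
      (ha : (a, c) ∉ P ∪ Q) (hb : (b, c) ∉ P ∪ Q)
      (hm : ∀ r ∈ Icc a b, (r, c) ∉ P) : Reach c b e
  | stepQ (a b : unitInterval) (e : Bool) (h : Reach c a e) (hab : a < b)
      (ha : (a, c) ∉ P ∪ Q) (hb : (b, c) ∉ P ∪ Q)
      (hm : ∀ r ∈ Icc a b, (r, c) ∉ Q) : Reach c b (xor e (xor (chi V c a) (chi V c b)))

variable {U V P Q}

/-- good functions up to `a`. -/
def Good (V P Q : Set (unitInterval × T)) (c : T) (a : unitInterval) (F : unitInterval → Bool) :
    Prop :=
  F 0 = false ∧ ∀ x y, x < y → y ≤ a → (x, c) ∉ P ∪ Q → (y, c) ∉ P ∪ Q →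
    ((∀ r ∈ Icc x y, (r, c) ∉ P) → F x = F y) ∧
    ((∀ r ∈ Icc x y, (r, c) ∉ Q) → xor (F x) (chi V c x) = xor (F y) (chi V c y))

theorem chi_const [TopologicalSpace T] (hU : IsOpen U) (hV : IsOpen V) (hUV : Disjoint U V)
    (hL : U ∪ V = (P ∪ Q)ᶜ) (c : T) {x y : unitInterval} (hxy : x ≤ y)
    (hP : ∀ r ∈ Icc x y, (r, c) ∉ P) (hQ : ∀ r ∈ Icc x y, (r, c) ∉ Q) :
    chi V c x = chi V c y := by
  have hcont : Continuous fun r : unitInterval => (r, c) := by fun_prop
  have hpre : IsPreconnected (Icc x y) := isPreconnected_Icc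
  have hcov : Icc x y ⊆ (fun r : unitInterval => (r, c)) ⁻¹' U ∪
      (fun r : unitInterval => (r, c)) ⁻¹' V := by
    intro r hr
    have : (r, c) ∈ U ∪ V := by
      rw [hL]
      rintro (h | h)
      · exact hP r hr h
      · exact hQ r hr h
    exact this
  have hdis : Icc x y ∩ ((fun r : unitInterval => (r, c)) ⁻¹' U ∩
      (fun r : unitInterval => (r, c)) ⁻¹' V) = ∅ := by
    rw [← Set.preimage_inter, hUV.inter_eq]
    simp
  have hne : ¬ ((Icc x y ∩ (fun r : unitInterval => (r, c)) ⁻¹' U).Nonempty ∧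
      (Icc x y ∩ (fun r : unitInterval => (r, c)) ⁻¹' V).Nonempty) := by
    rintro ⟨h1, h2⟩
    have := hpre _ _ (hU.preimage hcont) (hV.preimage hcont) hcov h1 h2
    rw [hdis] at this
    exact Set.not_nonempty_empty this
  have hx : x ∈ Icc x y := ⟨le_rfl, hxy⟩
  have hy : y ∈ Icc x y := ⟨hxy, le_rfl⟩
  unfold chi
  by_cases h1 : (x, c) ∈ V <;> by_cases h2 : (y, c) ∈ V
  · simp [h1, h2]
  · exfalso
    apply hne
    refine ⟨⟨y, hy, ?_⟩, ⟨x, hx, h1⟩⟩
    exact (hcov hy).resolve_right h2
  · exfalso
    apply hne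
    refine ⟨⟨x, hx, ?_⟩, ⟨y, hy, h2⟩⟩
    exact (hcov hx).resolve_right h1
  · simp [h1, h2]

theorem Reach.nonneg {c : T} {a : unitInterval} {e : Bool} (_ : Reach V P Q c a e) : 0 ≤ a :=
  unitInterval.nonneg'

theorem Reach.good [TopologicalSpace T] (hU : IsOpen U) (hV : IsOpen V) (hUV : Disjoint U V)
    (hL : U ∪ V = (P ∪ Q)ᶜ) {c : T} {a : unitInterval} {e : Bool} (h : Reach V P Q c a e) :
    ∃ F, Good V P Q c a F ∧ F a = e := by
  induction h with
  | zero =>
    refine ⟨fun _ => false, ⟨rfl, ?_⟩, rfl⟩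
    intro x y hxy hy
    exact absurd (lt_of_lt_of_le hxy hy) (not_lt.2 unitInterval.nonneg')
  | stepP a b e h hab ha hb hm ih =>
    obtain ⟨F, ⟨hF0, hF⟩, hFa⟩ := ih
    refine ⟨fun x => if x ≤ a then F x else e, ⟨?_, ?_⟩, ?_⟩
    · simp [unitInterval.nonneg', hF0]
    · -- in the cell
      have key : ∀ x y, a ≤ x → x ≤ y → y ≤ b → (x, c) ∉ P ∪ Q → (y, c) ∉ P ∪ Q →
          ((∀ r ∈ Icc x y, (r, c) ∉ P) →
            (if x ≤ a then F x else e) = (if y ≤ a then F y else e)) ∧
          ((∀ r ∈ Icc x y, (r, c) ∉ Q) → xor (if x ≤ a then F x else e) (chi V c x) =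
            xor (if y ≤ a then F y else e) (chi V c y)) := by
        intro x y hax hxy hyb _ _
        have e1 : ∀ z, a ≤ z → (if z ≤ a then F z else e) = e := by
          intro z hz
          split_ifs with h1
          · rw [le_antisymm h1 hz, hFa]
          · rfl
        rw [e1 x hax, e1 y (hax.trans hxy)]
        refine ⟨fun _ => rfl, fun hq => ?_⟩
        rw [chi_const hU hV hUV hL c hxy
          (fun r hr => hm r ⟨hax.trans hr.1, hr.2.trans hyb⟩) hq]
      intro x y hxy hyb hx hy
      rcases le_or_gt y a with h1 | h1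
      · have h2 : x ≤ a := hxy.le.trans h1
        simp only [h1, h2, if_true]
        exact hF x y hxy h1 hx hy
      · rcases le_or_gt a x with h2 | h2
        · exact key x y h2 hxy.le hyb hx hy
        · have k1 := hF x a h2 le_rfl hx ha
          have k2 := key a y le_rfl h1.le hyb ha hy
          have h3 : x ≤ a := h2.le
          simp only [h3, if_true, le_refl] at k2 ⊢
          constructor
          · intro hp
            rw [k1.1 fun r hr => hp r ⟨hr.1, hr.2.trans h1.le⟩]
            exact k2.1 fun r hr => hp r ⟨h3.trans hr.1, hr.2⟩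
          · intro hp
            rw [k1.2 fun r hr => hp r ⟨hr.1, hr.2.trans h1.le⟩]
            exact k2.2 fun r hr => hp r ⟨h3.trans hr.1, hr.2⟩
    · simp [not_le.2 hab]
  | stepQ a b e h hab ha hb hm ih =>
    obtain ⟨F, ⟨hF0, hF⟩, hFa⟩ := ih
    refine ⟨fun x => if x ≤ a then F x else xor e (xor (chi V c a) (chi V c x)), ⟨?_, ?_⟩, ?_⟩
    · simp [unitInterval.nonneg', hF0]
    · -- in the cell
      have key : ∀ x y, a ≤ x → x ≤ y → y ≤ b → (x, c) ∉ P ∪ Q → (y, c) ∉ P ∪ Q →
          ((∀ r ∈ Icc x y, (r, c) ∉ P) →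
            (if x ≤ a then F x else xor e (xor (chi V c a) (chi V c x))) =
              (if y ≤ a then F y else xor e (xor (chi V c a) (chi V c y)))) ∧
          ((∀ r ∈ Icc x y, (r, c) ∉ Q) →
            xor (if x ≤ a then F x else xor e (xor (chi V c a) (chi V c x))) (chi V c x) =
            xor (if y ≤ a then F y else xor e (xor (chi V c a) (chi V c y))) (chi V c y)) := by
        intro x y hax hxy hyb _ _
        have e1 : ∀ z, a ≤ z → (if z ≤ a then F z else xor e (xor (chi V c a) (chi V c z))) =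
            xor e (xor (chi V c a) (chi V c z)) := by
          intro z hz
          split_ifs with h1
          · rw [le_antisymm h1 hz, hFa]
            simp
          · rfl
        rw [e1 x hax, e1 y (hax.trans hxy)]
        refine ⟨fun hp => ?_, fun _ => ?_⟩
        · rw [chi_const hU hV hUV hL c hxy hp
            (fun r hr => hm r ⟨hax.trans hr.1, hr.2.trans hyb⟩)]
        · cases e <;> cases chi V c a <;> cases chi V c x <;> cases chi V c y <;> rfl
      intro x y hxy hyb hx hy
      rcases le_or_gt y a with h1 | h1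
      · have h2 : x ≤ a := hxy.le.trans h1
        simp only [h1, h2, if_true]
        exact hF x y hxy h1 hx hy
      · rcases le_or_gt a x with h2 | h2
        · exact key x y h2 hxy.le hyb hx hy
        · have k1 := hF x a h2 le_rfl hx ha
          have k2 := key a y le_rfl h1.le hyb ha hy
          have h3 : x ≤ a := h2.le
          simp only [h3, if_true, le_refl] at k2 ⊢
          constructor
          · intro hp
            rw [k1.1 fun r hr => hp r ⟨hr.1, hr.2.trans h1.le⟩]
            exact k2.1 fun r hr => hp r ⟨h3.trans hr.1, hr.2⟩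
          · intro hp
            rw [k1.2 fun r hr => hp r ⟨hr.1, hr.2.trans h1.le⟩]
            exact k2.2 fun r hr => hp r ⟨h3.trans hr.1, hr.2⟩
    · simp [not_le.2 hab]

theorem Good.eq {c : T} {F : unitInterval → Bool} (hF : Good V P Q c 1 F) {a : unitInterval}
    {e : Bool} (h : Reach V P Q c a e) : F a = e := by
  induction h with
  | zero => exact hF.1
  | stepP a b e h hab ha hb hm ih =>
    rw [← (hF.2 a b hab unitInterval.le_one' ha hb).1 hm, ih]
  | stepQ a b e h hab ha hb hm ih =>
    have := (hF.2 a b hab unitInterval.le_one' ha hb).2 hm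
    rw [ih] at this
    revert this
    cases e <;> cases F b <;> cases chi V c a <;> cases chi V c b <;> simp

theorem Reach.open [TopologicalSpace T] (hU : IsOpen U) (hV : IsOpen V) (hP : IsClosed P)
    (hQ : IsClosed Q) (hUV : Disjoint U V) (hL : U ∪ V = (P ∪ Q)ᶜ) {c : T} {a : unitInterval}
    {e : Bool} (h : Reach V P Q c a e) : ∀ᶠ c' in 𝓝 c, Reach V P Q c' a e := by
  have hoff : ∀ a : unitInterval, (a, c) ∉ P ∪ Q → ∀ᶠ c' in 𝓝 c, (a, c') ∉ P ∪ Q ∧
      chi V c' a = chi V c a := by
    intro a ha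
    have hcont : Continuous fun c' : T => (a, c') := by fun_prop
    have h1 : (a, c) ∈ U ∪ V := by rw [hL]; exact ha
    rcases h1 with h1 | h1
    · filter_upwards [(hU.preimage hcont).mem_nhds h1] with c' hc'
      have h2 : (a, c') ∈ (P ∪ Q)ᶜ := by rw [← hL]; exact Or.inl hc'
      refine ⟨h2, ?_⟩
      have h3 : (a, c') ∉ V := fun h3 => (Set.disjoint_left.1 hUV) hc' h3
      have h4 : (a, c) ∉ V := fun h3 => (Set.disjoint_left.1 hUV) h1 h3
      simp [chi, h3, h4]
    · filter_upwards [(hV.preimage hcont).mem_nhds h1] with c' hc'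
      have h2 : (a, c') ∈ (P ∪ Q)ᶜ := by rw [← hL]; exact Or.inr hc'
      refine ⟨h2, ?_⟩
      have h3 : (a, c') ∈ V := hc'
      simp [chi, h3, h1]
  have htube : ∀ (R : Set (unitInterval × T)), IsClosed R → ∀ a b : unitInterval,
      (∀ r ∈ Icc a b, (r, c) ∉ R) → ∀ᶠ c' in 𝓝 c, ∀ r ∈ Icc a b, (r, c') ∉ R := by
    intro R hR a b hm
    have hK : IsCompact (Icc a b) := isCompact_Icc
    refine hK.eventually_forall_of_forall_eventually (P := fun c' r => (r, c') ∉ R) ?_
    intro r hr
    have hcont : Continuous fun z : T × unitInterval => (z.2, z.1) := by fun_prop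
    exact (hR.isOpen_compl.preimage hcont).mem_nhds (hm r hr)
  induction h with
  | zero => exact Filter.Eventually.of_forall fun _ => Reach.zero
  | stepP a b e h hab ha hb hm ih =>
    filter_upwards [ih, hoff a ha, hoff b hb, htube P hP a b hm] with c' h1 h2 h3 h4
    exact Reach.stepP a b e h1 hab h2.1 h3.1 h4
  | stepQ a b e h hab ha hb hm ih =>
    filter_upwards [ih, hoff a ha, hoff b hb, htube Q hQ a b hm] with c' h1 h2 h3 h4
    have := Reach.stepQ a b e h1 hab h2.1 h3.1 h4
    rw [h2.2, h3.2] at this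
    exact this

theorem exists_reach [TopologicalSpace T] (hP : IsClosed P)
    (hQ : IsClosed Q) (hPQ : Disjoint P Q) {c : T}
    (h0 : ((0, c) : unitInterval × T) ∉ P ∪ Q) (h1 : ((1, c) : unitInterval × T) ∉ P ∪ Q)
    (hint : interior {r : unitInterval | (r, c) ∈ P ∪ Q} = ∅) :
    ∃ e, Reach V P Q c 1 e := by
  have hcont : Continuous fun r : unitInterval => (r, c) := by fun_prop
  obtain ⟨δ, hδ, hleb⟩ := lebesgue_number_lemma_of_metric (s := (univ : Set unitInterval))
    (c := fun b : Bool => if b then (fun r : unitInterval => (r, c)) ⁻¹' Pᶜ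
      else (fun r : unitInterval => (r, c)) ⁻¹' Qᶜ) isCompact_univ
    (by
      intro b
      cases b
      · simpa using hQ.isOpen_compl.preimage hcont
      · simpa using hP.isOpen_compl.preimage hcont)
    (by
      intro r _
      by_cases h : (r, c) ∈ P
      · refine mem_iUnion.2 ⟨false, ?_⟩
        have : (r, c) ∉ Q := fun hq => (Set.disjoint_left.1 hPQ) h hq
        simpa using this
      · exact mem_iUnion.2 ⟨true, by simpa using h⟩)
  -- steps of length < δ
  have step : ∀ a b : unitInterval, a < b → (b : ℝ) - a < δ → (a, c) ∉ P ∪ Q →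
      (b, c) ∉ P ∪ Q → (∃ e, Reach V P Q c a e) → ∃ e, Reach V P Q c b e := by
    intro a b hab hd ha hb ⟨e, he⟩
    obtain ⟨i, hi⟩ := hleb a (mem_univ _)
    have hsub : ∀ r ∈ Icc a b, r ∈ Metric.ball a δ := by
      intro r hr
      rw [Metric.mem_ball, Subtype.dist_eq, Real.dist_eq]
      have h1 : (a : ℝ) ≤ r := hr.1
      have h2 : (r : ℝ) ≤ b := hr.2
      rw [abs_of_nonneg (by linarith)]
      linarith
    cases i
    · exact ⟨_, Reach.stepQ a b e he hab ha hb fun r hr => by
        have := hi (hsub r hr)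
        simpa using this⟩
    · exact ⟨_, Reach.stepP a b e he hab ha hb fun r hr => by
        have := hi (hsub r hr)
        simpa using this⟩
  have main : ∀ n : ℕ, ∃ a : unitInterval, (a, c) ∉ P ∪ Q ∧ (∃ e, Reach V P Q c a e) ∧
      (a = 1 ∨ (n : ℝ) * (δ / 2) ≤ a) := by
    intro n
    induction n with
    | zero => exact ⟨0, h0, ⟨_, Reach.zero⟩, Or.inr (by simp)⟩
    | succ n ih =>
      obtain ⟨a, ha, hr, hn⟩ := ih
      rcases hn with hn | hn
      · exact ⟨a, ha, hr, Or.inl hn⟩
      rcases eq_or_lt_of_le (unitInterval.le_one' (t := a)) with h2 | h2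
      · exact ⟨a, ha, hr, Or.inl h2⟩
      by_cases h3 : (1 : ℝ) - a < δ
      · exact ⟨1, h1, step a 1 h2 h3 ha h1 hr, Or.inl rfl⟩
      · push Not at h3
        -- a point off `L` in `(a + δ/2, a + δ)`
        have hopen : IsOpen {r : unitInterval | (a : ℝ) + δ / 2 < r ∧ (r : ℝ) < a + δ} := by
          have : Continuous fun r : unitInterval => (r : ℝ) := continuous_subtype_val
          exact (isOpen_lt continuous_const this).inter (isOpen_lt this continuous_const)
        have hne : ∃ b : unitInterval, ((a : ℝ) + δ / 2 < b ∧ (b : ℝ) < a + δ) ∧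
            (b, c) ∉ P ∪ Q := by
          by_contra hcon
          push Not at hcon
          have hsub : {r : unitInterval | (a : ℝ) + δ / 2 < r ∧ (r : ℝ) < a + δ} ⊆
              interior {r : unitInterval | (r, c) ∈ P ∪ Q} := by
            apply interior_maximal _ hopen
            intro r hr
            exact hcon r hr
          rw [hint] at hsub
          have hmem : (⟨a + 3 * δ / 4, by
              have := a.2.1
              constructor
              · positivity
              · linarith⟩ : unitInterval) ∈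
              {r : unitInterval | (a : ℝ) + δ / 2 < r ∧ (r : ℝ) < a + δ} := by
            constructor
            · change (a : ℝ) + δ / 2 < a + 3 * δ / 4
              linarith
            · change (a : ℝ) + 3 * δ / 4 < a + δ
              linarith
          exact hsub hmem
        obtain ⟨b, ⟨hb1, hb2⟩, hb3⟩ := hne
        have hab : a < b := by
          rw [← Subtype.coe_lt_coe]
          linarith
        refine ⟨b, hb3, step a b hab (by linarith) ha hb3 hr, Or.inr ?_⟩
        push_cast
        linarith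
  obtain ⟨n, hn⟩ := exists_nat_gt (1 / (δ / 2))
  obtain ⟨a, ha, hr, h3⟩ := main n
  rcases h3 with h3 | h3
  · rw [← h3]; exact hr
  · exfalso
    have : 1 < (n : ℝ) * (δ / 2) := by
      rwa [div_lt_iff₀ (by positivity)] at hn
    have h4 : (a : ℝ) ≤ 1 := a.2.2
    linarith

end

theorem cross : CROSS := by
  intro T _ U V P Q hU hV hP hQ hUV hPQ hL h0 h1 hint
  have off0 : ∀ c : T, ((0, c) : unitInterval × T) ∉ P ∪ Q := by
    intro c
    have : ((0, c) : unitInterval × T) ∈ (P ∪ Q)ᶜ := by rw [← hL]; exact Or.inl (h0 c)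
    exact this
  have off1 : ∀ c : T, ((1, c) : unitInterval × T) ∉ P ∪ Q := by
    intro c
    have : ((1, c) : unitInterval × T) ∈ (P ∪ Q)ᶜ := by rw [← hL]; exact Or.inr (h1 c)
    exact this
  have hchi0 : ∀ c, chi V c 0 = false := by
    intro c
    have : ((0, c) : unitInterval × T) ∉ V := fun h => (Set.disjoint_left.1 hUV) (h0 c) h
    simp [chi, this]
  have hchi1 : ∀ c, chi V c 1 = true := by
    intro c
    simp [chi, h1 c]
  have uniq : ∀ c e e', Reach V P Q c 1 e → Reach V P Q c 1 e' → e = e' := by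
    intro c e e' he he'
    obtain ⟨F, hF, hF1⟩ := he.good hU hV hUV hL
    rw [← hF1, hF.eq he']
  have h01 : (0 : unitInterval) < 1 := by
    rw [← Subtype.coe_lt_coe]; exact zero_lt_one
  refine ⟨{c | Reach V P Q c 1 true}, ⟨?_, ?_⟩, ?_, ?_⟩
  · rw [← isOpen_compl_iff, isOpen_iff_mem_nhds]
    intro c hc
    obtain ⟨e, he⟩ := exists_reach (V := V) hP hQ hPQ (off0 c) (off1 c) (hint c)
    cases e
    · filter_upwards [he.open hU hV hP hQ hUV hL] with c' hc' hc''
      exact absurd (uniq c' _ _ hc' hc'') (by simp)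
    · exact absurd he hc
  · rw [isOpen_iff_mem_nhds]
    intro c hc
    exact Reach.open hU hV hP hQ hUV hL hc
  · intro c hc
    have := Reach.stepQ (V := V) (P := P) 0 1 false (Reach.zero) h01 (off0 c) (off1 c)
      (fun r _ => hc r)
    rw [hchi0, hchi1] at this
    exact this
  · intro c hc hc'
    have := Reach.stepP (V := V) (Q := Q) 0 1 false (Reach.zero) h01 (off0 c) (off1 c)
      (fun r _ => hc r)
    exact absurd (uniq c _ _ this hc') (by simp)

end Pool.Agent.MD.H14
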